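import Pool.Agent.H8.LipTree4

set_option autoImplicit false

namespace Pool.Agent.Results.MP_349e68_an.Backward

open Pool.Agent.H8.LipTree

theorem result : ∃ (T : Type) (o : T) (par : T → T) (φ : T → T) (c : ℂ),
    IsRootedTree o par ∧ Infinite T ∧ IsCompOp o par φ ∧ 1 ≤ ‖c‖ ∧
    Hypercyclic o par (fun f => c • (f ∘ φ)) ∧
    ∃ v : T, {n : ℕ | 1 ≤ n ∧ ∃ w, φ^[n] w = v}.Infinite := by
  refine ⟨ℤ, 0, p, fun x => x + 1, 1, tree, inferInstance, compOp, by simp, hyper, 0, ?_⟩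
  refine (Set.Ici_infinite 1).mono fun n hn => ⟨hn, ?_⟩
  exact (add_right_surjective (1 : ℤ)).iterate n 0

end Pool.Agent.Results.MP_349e68_an.Backward
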